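import Mathlib

/-!
Helper file, adapted from earlier runs (modules `Helper234.LInf.Core`,
`MP_06b617_an.SeparableMonotoneConvergence` and `MP_5127fd_an.NormalCone`).
-/

set_option autoImplicit false

open Filter Topology

namespace Pool.Agent.H34.Linf

universe u

section linf

/-- Rosenthal's lemma: one can pass to an infinite index set on which the off-diagonal part of each
functional is uniformly small. -/
theorem rosenthal_lemma (𝕜 : Type) [RCLike 𝕜] (lam : ℕ → lp (fun _ : ℕ => 𝕜) ⊤ →L[𝕜] 𝕜) (C : ℝ)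
    (hC : ∀ i, ‖lam i‖ ≤ C) (I : Set ℕ) (hI : I.Infinite) (ε : ℝ) (hε : 0 < ε) :
    ∃ M : Set ℕ, M ⊆ I ∧ M.Infinite ∧ ∀ i ∈ M, ∀ y : lp (fun _ : ℕ => 𝕜) ⊤, ‖y‖ ≤ 1 →
      (∀ k, y k ≠ 0 → k ∈ M ∧ k ≠ i) → ‖lam i y‖ ≤ ε := by
  by_contra hcon
  push Not at hcon
  have key : ∀ n : ℕ, ∀ J : Set ℕ, J ⊆ I → J.Infinite → ∃ J2 ⊆ J, J2.Infinite ∧ ∀ i ∈ J2,
      ∃ z : lp (fun _ : ℕ => 𝕜) ⊤, ‖z‖ ≤ 1 ∧ (∀ k, z k ≠ 0 → k ∈ J ∧ k ∉ J2) ∧
        n * ε ≤ ‖lam i z‖ := by
    intro n
    induction n with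
    | zero =>
      intro J hJ hJi
      refine ⟨J, Set.Subset.rfl, hJi, fun i hi => ⟨0, by simp, ?_, by simp⟩⟩
      intro k hk
      exact absurd (by simp : (0 : lp (fun _ : ℕ => 𝕜) ⊤) k = 0) hk
    | succ n ih =>
      intro J hJ hJi
      obtain ⟨e, he, heJ⟩ : ∃ e : ℕ → ℕ, Function.Injective e ∧ ∀ m, e m ∈ J :=
        ⟨Nat.nth (· ∈ J), Nat.nth_injective hJi, fun m => Nat.nth_mem_of_infinite hJi m⟩
      let Mp : ℕ → Set ℕ := fun p => Set.range fun q => e (Nat.pair p q)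
      have hMJ : ∀ p, Mp p ⊆ J := by
        rintro p _ ⟨q, rfl⟩
        exact heJ _
      have hMi : ∀ p, (Mp p).Infinite := fun p => Set.infinite_range_of_injective (fun a b hab => by
        exact (Nat.pair_eq_pair.1 (he hab)).2)
      have hMd : ∀ p p' x, x ∈ Mp p → x ∈ Mp p' → p = p' := by
        rintro p p' _ ⟨q, rfl⟩ ⟨q', h⟩
        exact ((Nat.pair_eq_pair.1 (he h)).1).symm
      choose ip hip y hy1 hy2 hy3 using fun p => hcon (Mp p) ((hMJ p).trans hJ) (hMi p)
      have hipinj : Function.Injective ip := fun p p' h =>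
        hMd p p' (ip p) (hip p) (by rw [h]; exact hip p')
      obtain ⟨J2, hJ2, hJ2i, hz⟩ := ih (Set.range ip)
        (by rintro _ ⟨p, rfl⟩; exact hJ (hMJ p (hip p))) (Set.infinite_range_of_injective hipinj)
      refine ⟨J2, hJ2.trans (by rintro _ ⟨p, rfl⟩; exact hMJ p (hip p)), hJ2i, ?_⟩
      intro i hi
      obtain ⟨p, rfl⟩ := hJ2 hi
      obtain ⟨z, hz1, hz2, hz3⟩ := hz (ip p) hi
      obtain ⟨c, hc1, hc2⟩ := RCLike.exists_norm_eq_mul_self (lam (ip p) (y p))
      obtain ⟨d, hd1, hd2⟩ := RCLike.exists_norm_eq_mul_self (lam (ip p) z)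
      have hkey : ∀ k, y p k ≠ 0 → ∀ p', ip p' = k → False := by
        intro k h1 p' hp'
        obtain ⟨h3, h4⟩ := hy2 p k h1
        have h5 : p = p' := hMd p p' k h3 (by rw [← hp']; exact hip p')
        exact h4 (by rw [← hp', h5])
      refine ⟨c • y p + d • z, ?_, ?_, ?_⟩
      · apply lp.norm_le_of_forall_le zero_le_one
        intro k
        rw [lp.coeFn_add, Pi.add_apply, lp.coeFn_smul, lp.coeFn_smul, Pi.smul_apply, Pi.smul_apply]
        by_cases h1 : y p k = 0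
        · rw [h1, smul_zero, zero_add, norm_smul, hd1, one_mul]
          exact (lp.norm_apply_le_norm (by simp) z k).trans hz1
        · have h2 : z k = 0 := by
            by_contra h2
            obtain ⟨⟨p', hp'⟩, -⟩ := hz2 k h2
            exact hkey k h1 p' hp'
          rw [h2, smul_zero, add_zero, norm_smul, hc1, one_mul]
          exact (lp.norm_apply_le_norm (by simp) (y p) k).trans (hy1 p)
      · intro k hk
        by_cases h1 : y p k = 0
        · have h2 : z k ≠ 0 := by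
            intro h2
            apply hk
            rw [lp.coeFn_add, Pi.add_apply, lp.coeFn_smul, lp.coeFn_smul, Pi.smul_apply,
              Pi.smul_apply, h1, h2]
            simp
          obtain ⟨⟨p', hp'⟩, h6⟩ := hz2 k h2
          exact ⟨by rw [← hp']; exact hMJ p' (hip p'), h6⟩
        · obtain ⟨h3, h4⟩ := hy2 p k h1
          refine ⟨hMJ p h3, fun h5 => ?_⟩
          obtain ⟨p', hp'⟩ := hJ2 h5
          exact hkey k h1 p' hp'
      · rw [map_add, map_smul, map_smul, smul_eq_mul, smul_eq_mul, ← hc2, ← hd2]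
        rw [← RCLike.ofReal_add, RCLike.norm_ofReal, abs_of_nonneg (by positivity)]
        push_cast
        linarith [hy3 p]
  obtain ⟨n, hn⟩ := exists_nat_gt (C / ε)
  obtain ⟨J2, hJ2, hJ2i, h⟩ := key n I Set.Subset.rfl hI
  obtain ⟨i, hi⟩ := hJ2i.nonempty
  obtain ⟨z, hz1, -, hz3⟩ := h i hi
  have h1 : ‖lam i z‖ ≤ C * 1 := (lam i).le_of_opNorm_le_of_le (hC i) hz1
  rw [div_lt_iff₀ hε] at hn
  linarith

/-- An operator on l^inf which is bounded below on the unit vectors fixes a copy of l^inf, spanned by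
unit vectors. -/
theorem fixes_copy (𝕜 : Type) [RCLike 𝕜] (X : Type u) [NormedAddCommGroup X]
    [NormedSpace 𝕜 X] (V : lp (fun _ : ℕ => 𝕜) ⊤ →L[𝕜] X) (δ : ℝ) (hδ : 0 < δ)
    (hV : ∀ i : ℕ, δ ≤ ‖V (lp.single ⊤ i (1 : 𝕜))‖) :
    ∃ W : lp (fun _ : ℕ => 𝕜) ⊤ →L[𝕜] lp (fun _ : ℕ => 𝕜) ⊤,
      (∀ y n, W y n = 0 ∨ ∃ k, W y n = y k) ∧ ∀ y, δ / 2 * ‖y‖ ≤ ‖V (W y)‖ := by
  classical
  set I : Set ℕ := {i | δ ≤ ‖V (lp.single ⊤ i (1 : 𝕜))‖} with hIdef
  have hI : I.Infinite := by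
    have : I = Set.univ := Set.eq_univ_of_forall fun i => hV i
    rw [this]
    exact Set.infinite_univ
  have hdual : ∀ i : ℕ, ∃ g : StrongDual 𝕜 X, ‖g‖ ≤ 1 ∧
      g (V (lp.single ⊤ i (1 : 𝕜))) = (‖V (lp.single ⊤ i (1 : 𝕜))‖ : 𝕜) := fun i =>
    exists_dual_vector'' 𝕜 _
  choose g hg1 hg2 using hdual
  obtain ⟨M, hMI, hM, hrest⟩ := rosenthal_lemma 𝕜 (fun i => (g i).comp V) ‖V‖ (by
    intro i
    calc ‖(g i).comp V‖ ≤ ‖g i‖ * ‖V‖ := ContinuousLinearMap.opNorm_comp_le _ _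
      _ ≤ 1 * ‖V‖ := by gcongr; exact hg1 i
      _ = ‖V‖ := one_mul _) I hI (δ / 2) (by positivity)
  set m : ℕ → ℕ := Nat.nth (· ∈ M) with hm
  have hmono : StrictMono m := Nat.nth_strictMono hM
  have hmem : ∀ k, m k ∈ M := fun k => Nat.nth_mem_of_infinite hM k
  have hinj : Function.Injective m := hmono.injective
  -- the embedding
  have hext : ∀ y : lp (fun _ : ℕ => 𝕜) ⊤, ∀ n : ℕ,
      ‖Function.extend m (fun k => y k) (fun _ => (0 : 𝕜)) n‖ ≤ ‖y‖ := by
    intro y n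
    by_cases h : ∃ k, m k = n
    · obtain ⟨k, rfl⟩ := h
      rw [hinj.extend_apply]
      exact lp.norm_apply_le_norm ENNReal.top_ne_zero y k
    · rw [Function.extend_apply' _ _ _ h]
      simp
  let W0 : lp (fun _ : ℕ => 𝕜) ⊤ →ₗ[𝕜] lp (fun _ : ℕ => 𝕜) ⊤ :=
    { toFun := fun y => ⟨Function.extend m (fun k => y k) (fun _ => (0 : 𝕜)),
        memℓp_infty ⟨‖y‖, by rintro _ ⟨n, rfl⟩; exact hext y n⟩⟩
      map_add' := by
        intro x y
        ext n
        by_cases h : ∃ k, m k = n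
        · obtain ⟨k, rfl⟩ := h
          change Function.extend m (fun k => (x + y) k) (fun _ => (0 : 𝕜)) (m k) =
            Function.extend m (fun k => x k) (fun _ => (0 : 𝕜)) (m k) +
            Function.extend m (fun k => y k) (fun _ => (0 : 𝕜)) (m k)
          simp only [hinj.extend_apply]
          rfl
        · change Function.extend m (fun k => (x + y) k) (fun _ => (0 : 𝕜)) n =
            Function.extend m (fun k => x k) (fun _ => (0 : 𝕜)) n +
            Function.extend m (fun k => y k) (fun _ => (0 : 𝕜)) n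
          simp [Function.extend_apply' _ _ _ h]
      map_smul' := by
        intro c y
        ext n
        by_cases h : ∃ k, m k = n
        · obtain ⟨k, rfl⟩ := h
          simp [hinj.extend_apply]
        · simp [Function.extend_apply' _ _ _ h] }
  have hW0 : ∀ y, ‖W0 y‖ ≤ 1 * ‖y‖ := by
    intro y
    rw [one_mul]
    exact lp.norm_le_of_forall_le (norm_nonneg _) (fun n => hext y n)
  let W : lp (fun _ : ℕ => 𝕜) ⊤ →L[𝕜] lp (fun _ : ℕ => 𝕜) ⊤ := W0.mkContinuous 1 hW0
  have hWin : ∀ y k, W y (m k) = y k := by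
    intro y k
    change Function.extend m (fun k => y k) (fun _ => (0 : 𝕜)) (m k) = y k
    rw [hinj.extend_apply]
  have hWout : ∀ y n, n ∉ M → W y n = 0 := by
    intro y n hn
    change Function.extend m (fun k => y k) (fun _ => (0 : 𝕜)) n = 0
    rw [Function.extend_apply']
    rintro ⟨k, rfl⟩
    exact hn (hmem k)
  have hWle : ∀ y n, ‖W y n‖ ≤ ‖y‖ := fun y n => hext y n
  refine ⟨W, fun y n => ?_, ?_⟩
  · by_cases hn : n ∈ M
    · right
      obtain ⟨k, hk⟩ := (Set.ext_iff.1 (Nat.range_nth_of_infinite hM) n).2 hn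
      exact ⟨k, by rw [← hk]; exact hWin y k⟩
    · exact Or.inl (hWout y n hn)
  intro y
  rcases eq_or_ne y 0 with rfl | hy
  · simp
  have hy0 : 0 < ‖y‖ := norm_pos_iff.mpr hy
  have key : ∀ k, ‖y k‖ * δ ≤ ‖V (W y)‖ + δ / 2 * ‖y‖ := by
    intro k
    set rest : lp (fun _ : ℕ => 𝕜) ⊤ := W y - y k • lp.single ⊤ (m k) (1 : 𝕜) with hr
    have hr1 : ∀ n, n ≠ m k → rest n = W y n := by
      intro n hn
      have : rest n = W y n - y k * (lp.single ⊤ (m k) (1 : 𝕜) : lp (fun _ : ℕ => 𝕜) ⊤) n := rfl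
      rw [this, lp.single_apply, Pi.single_eq_of_ne hn]
      simp
    have hr2 : rest (m k) = 0 := by
      have : rest (m k) = W y (m k) -
          y k * (lp.single ⊤ (m k) (1 : 𝕜) : lp (fun _ : ℕ => 𝕜) ⊤) (m k) := rfl
      rw [this, lp.single_apply, Pi.single_eq_same, hWin]
      simp
    have hrn : ‖rest‖ ≤ ‖y‖ := by
      apply lp.norm_le_of_forall_le (norm_nonneg _)
      intro n
      by_cases h : n = m k
      · rw [h, hr2]; simp
      · rw [hr1 n h]; exact hWle y n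
    have hz := hrest (m k) (hmem k) (((‖y‖⁻¹ : ℝ) : 𝕜) • rest) (by
        rw [norm_smul, RCLike.norm_ofReal, abs_of_pos (inv_pos.mpr hy0)]
        calc ‖y‖⁻¹ * ‖rest‖ ≤ ‖y‖⁻¹ * ‖y‖ := by gcongr
          _ = 1 := inv_mul_cancel₀ hy0.ne') (by
        intro n hn
        have hn1 : rest n ≠ 0 := by
          intro h0
          apply hn
          simp [h0]
        have hn2 : n ≠ m k := by
          rintro rfl
          exact hn1 hr2
        refine ⟨?_, hn2⟩
        by_contra hn3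
        exact hn1 (by rw [hr1 n hn2, hWout y n hn3]))
    have hz2 : ‖g (m k) (V rest)‖ ≤ δ / 2 * ‖y‖ := by
      have : ‖y‖⁻¹ * ‖g (m k) (V rest)‖ ≤ δ / 2 := by
        simpa [norm_smul, abs_of_pos (inv_pos.mpr hy0)] using hz
      rw [inv_mul_le_iff₀ hy0] at this
      linarith
    have hdec : W y = y k • lp.single ⊤ (m k) (1 : 𝕜) + rest := by
      rw [hr]; abel
    have h1 : g (m k) (V (W y)) = y k * (‖V (lp.single ⊤ (m k) (1 : 𝕜))‖ : 𝕜) +
        g (m k) (V rest) := by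
      conv_lhs => rw [hdec]
      rw [map_add, map_add, map_smul, map_smul, hg2, smul_eq_mul]
    have h2 : ‖g (m k) (V (W y))‖ ≤ ‖V (W y)‖ := by
      calc ‖g (m k) (V (W y))‖ ≤ ‖g (m k)‖ * ‖V (W y)‖ := (g (m k)).le_opNorm _
        _ ≤ 1 * ‖V (W y)‖ := by gcongr; exact hg1 _
        _ = _ := one_mul _
    have h3 : δ ≤ ‖V (lp.single ⊤ (m k) (1 : 𝕜))‖ := hMI (hmem k)
    have h4 : ‖y k * (‖V (lp.single ⊤ (m k) (1 : 𝕜))‖ : 𝕜)‖ ≤
        ‖g (m k) (V (W y))‖ + ‖g (m k) (V rest)‖ := by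
      have : y k * (‖V (lp.single ⊤ (m k) (1 : 𝕜))‖ : 𝕜) =
        g (m k) (V (W y)) - g (m k) (V rest) := by rw [h1]; ring
      rw [this]
      exact norm_sub_le _ _
    rw [norm_mul, RCLike.norm_ofReal, abs_of_nonneg (norm_nonneg _)] at h4
    calc ‖y k‖ * δ ≤ ‖y k‖ * ‖V (lp.single ⊤ (m k) (1 : 𝕜))‖ := by gcongr
      _ ≤ _ := h4
      _ ≤ _ := by gcongr
  have hfin : ‖y‖ ≤ (‖V (W y)‖ + δ / 2 * ‖y‖) / δ := by
    apply lp.norm_le_of_forall_le (by positivity)
    intro k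
    rw [le_div_iff₀ hδ]
    exact key k
  rw [le_div_iff₀ hδ] at hfin
  change δ / 2 * ‖y‖ ≤ ‖V (W y)‖
  nlinarith


end linf

variable {X : Type*} [NormedAddCommGroup X] [NormedSpace ℝ X]

/-- `K` is a (norm) closed cone of `X` making `X` an ordered Banach space:
`x ≤ y` means `y - x ∈ K`. -/
structure IsOrderCone (K : Set X) : Prop where
  closed : IsClosed K
  zero_mem : (0 : X) ∈ K
  add_mem : ∀ x ∈ K, ∀ y ∈ K, x + y ∈ K
  smul_mem : ∀ c : ℝ, 0 ≤ c → ∀ x ∈ K, c • x ∈ K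
  salient : ∀ x : X, x ∈ K → -x ∈ K → x = 0

/-- `x` is increasing for the order of the cone `K`. -/
def Increasing (K : Set X) (x : ℕ → X) : Prop := ∀ n, x (n + 1) - x n ∈ K

/-- `x` has an upper bound. -/
def OrderBounded (K : Set X) (x : ℕ → X) : Prop := ∃ v, ∀ n, v - x n ∈ K

/-- `s` is a least upper bound (supremum) of the sequence `x`. -/
def IsSup (K : Set X) (x : ℕ → X) (s : X) : Prop :=
  (∀ n, s - x n ∈ K) ∧ ∀ w, (∀ n, w - x n ∈ K) → w - s ∈ K

/-- Property (S): every order bounded increasing sequence has a supremum. -/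
def PropertyS (K : Set X) : Prop :=
  ∀ x : ℕ → X, Increasing K x → OrderBounded K x → ∃ s, IsSup K x s

section

variable {K : Set X}

theorem IsSup.unique (hK : IsOrderCone K) {x : ℕ → X} {s t : X} (hs : IsSup K x s)
    (ht : IsSup K x t) : s = t := by
  have h1 := hs.2 t ht.1
  have h2 := ht.2 s hs.1
  have h3 := hK.salient (t - s) h1 (by simpa using h2)
  exact (sub_eq_zero.1 h3).symm

theorem sum_mem (hK : IsOrderCone K) (s : Finset ℕ) (f : ℕ → X) (h : ∀ i ∈ s, f i ∈ K) :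
    ∑ i ∈ s, f i ∈ K := by
  classical
  induction s using Finset.induction_on with
  | empty => simpa using hK.zero_mem
  | insert a s ha ih =>
    rw [Finset.sum_insert ha]
    exact hK.add_mem _ (h a (Finset.mem_insert_self _ _)) _
      (ih fun i hi => h i (Finset.mem_insert_of_mem hi))

theorem incr_le (hK : IsOrderCone K) {x : ℕ → X} (hx : Increasing K x) {m n : ℕ} (h : m ≤ n) :
    x n - x m ∈ K := by
  induction n, h using Nat.le_induction with
  | base => simpa using hK.zero_mem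
  | succ n _ ih =>
    have := hK.add_mem _ (hx n) _ ih
    simpa using this

theorem IsSup.add (hK : IsOrderCone K) {x y : ℕ → X} {s t : X} (hx : Increasing K x)
    (hy : Increasing K y) (hs : IsSup K x s) (ht : IsSup K y t) :
    IsSup K (fun n => x n + y n) (s + t) := by
  refine ⟨fun n => ?_, fun w hw => ?_⟩
  · have := hK.add_mem _ (hs.1 n) _ (ht.1 n)
    convert this using 1
    beta_reduce
    abel
  · have h1 : ∀ m n, w - (x m + y n) ∈ K := by
      intro m n
      have h2 := hw (max m n)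
      have h3 := incr_le hK hx (le_max_left m n)
      have h4 := incr_le hK hy (le_max_right m n)
      have := hK.add_mem _ (hK.add_mem _ h2 _ h3) _ h4
      convert this using 1
      beta_reduce
      abel
    have h2 : ∀ n, (w - s) - y n ∈ K := by
      intro n
      have := hs.2 (w - y n) (fun m => by
        have := h1 m n
        convert this using 1
        abel)
      convert this using 1
      abel
    have := ht.2 (w - s) h2
    convert this using 1
    abel

theorem IsSup.smul (hK : IsOrderCone K) {x : ℕ → X} {s : X} (hs : IsSup K x s) {c : ℝ}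
    (hc : 0 < c) : IsSup K (fun n => c • x n) (c • s) := by
  refine ⟨fun n => ?_, fun w hw => ?_⟩
  · rw [← smul_sub]
    exact hK.smul_mem c hc.le _ (hs.1 n)
  · have h1 := hs.2 (c⁻¹ • w) (fun n => by
      have := hK.smul_mem c⁻¹ (inv_pos.2 hc).le _ (hw n)
      rwa [smul_sub, smul_smul, inv_mul_cancel₀ hc.ne', one_smul] at this)
    have h2 := hK.smul_mem c hc.le _ h1
    rwa [smul_sub, smul_smul, mul_inv_cancel₀ hc.ne', one_smul] at h2

/-- Partial sums `∑_{k<N} a_k d_k`. -/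
def P (d : ℕ → X) (a : ℕ → ℝ) (N : ℕ) : X := ∑ k ∈ Finset.range N, a k • d k

theorem P_incr (hK : IsOrderCone K) {d : ℕ → X} (hd : ∀ k, d k ∈ K) {a : ℕ → ℝ}
    (ha : ∀ k, 0 ≤ a k) : Increasing K (P d a) := by
  intro n
  have : P d a (n + 1) - P d a n = a n • d n := by
    unfold P
    rw [Finset.sum_range_succ]
    abel
  rw [this]
  exact hK.smul_mem _ (ha n) _ (hd n)

theorem P_bdd (hK : IsOrderCone K) {d : ℕ → X} (hd : ∀ k, d k ∈ K) {v : X}
    (hv : ∀ N, v - ∑ k ∈ Finset.range N, d k ∈ K) {a : ℕ → ℝ} {C : ℝ} (hC0 : 0 ≤ C)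
    (haC : ∀ k, a k ≤ C) : OrderBounded K (P d a) := by
  refine ⟨C • v, fun N => ?_⟩
  have h1 := hK.smul_mem C hC0 _ (hv N)
  have h2 := sum_mem hK (Finset.range N) (fun k => (C - a k) • d k)
    (fun k _ => hK.smul_mem _ (sub_nonneg.2 (haC k)) _ (hd k))
  have h3 := hK.add_mem _ h1 _ h2
  convert h3 using 1
  unfold P
  simp only [sub_smul, Finset.sum_sub_distrib, smul_sub, Finset.smul_sum]
  abel

open Classical in
/-- The supremum of the partial sums `∑_{k<N} a_k d_k`. -/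
noncomputable def S (K : Set X) (d : ℕ → X) (a : ℕ → ℝ) : X :=
  if h : ∃ s, IsSup K (P d a) s then h.choose else 0

variable {d : ℕ → X} {v : X}

theorem S_spec (hK : IsOrderCone K) (hS : PropertyS K) (hd : ∀ k, d k ∈ K)
    (hv : ∀ N, v - ∑ k ∈ Finset.range N, d k ∈ K) {a : ℕ → ℝ} {C : ℝ} (ha : ∀ k, 0 ≤ a k)
    (haC : ∀ k, a k ≤ C) : IsSup K (P d a) (S K d a) := by
  have h : ∃ s, IsSup K (P d a) s :=
    hS _ (P_incr hK hd ha) (P_bdd hK hd hv (le_trans (ha 0) (haC 0)) haC)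
  unfold S
  rw [dif_pos h]
  exact h.choose_spec

theorem S_add (hK : IsOrderCone K) (hS : PropertyS K) (hd : ∀ k, d k ∈ K)
    (hv : ∀ N, v - ∑ k ∈ Finset.range N, d k ∈ K) {a b : ℕ → ℝ} {C D : ℝ} (ha : ∀ k, 0 ≤ a k)
    (haC : ∀ k, a k ≤ C) (hb : ∀ k, 0 ≤ b k) (hbD : ∀ k, b k ≤ D) :
    S K d (fun k => a k + b k) = S K d a + S K d b := by
  have h1 := (S_spec hK hS hd hv ha haC).add hK (P_incr hK hd ha) (P_incr hK hd hb)
    (S_spec hK hS hd hv hb hbD)
  have h2 := S_spec hK hS hd hv (a := fun k => a k + b k) (C := C + D)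
    (fun k => add_nonneg (ha k) (hb k)) (fun k => add_le_add (haC k) (hbD k))
  refine IsSup.unique hK h2 ?_
  convert h1 using 1
  funext N
  simp only [P, add_smul, Finset.sum_add_distrib]

theorem S_smul (hK : IsOrderCone K) (hS : PropertyS K) (hd : ∀ k, d k ∈ K)
    (hv : ∀ N, v - ∑ k ∈ Finset.range N, d k ∈ K) {a : ℕ → ℝ} {C c : ℝ} (ha : ∀ k, 0 ≤ a k)
    (haC : ∀ k, a k ≤ C) (hc : 0 ≤ c) :
    S K d (fun k => c * a k) = c • S K d a := by
  have h2 := S_spec hK hS hd hv (a := fun k => c * a k) (C := c * C)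
    (fun k => mul_nonneg hc (ha k)) (fun k => mul_le_mul_of_nonneg_left (haC k) hc)
  rcases hc.eq_or_lt with rfl | hc
  · rw [zero_smul]
    refine IsSup.unique hK h2 ⟨fun n => ?_, fun w hw => ?_⟩
    · simpa [P] using hK.zero_mem
    · simpa [P] using hw 0
  · have h1 := (S_spec hK hS hd hv ha haC).smul hK hc
    refine IsSup.unique hK h2 ?_
    convert h1 using 1
    funext N
    simp only [P, Finset.smul_sum, smul_smul]

theorem S_single (hK : IsOrderCone K) (hS : PropertyS K) (hd : ∀ k, d k ∈ K)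
    (hv : ∀ N, v - ∑ k ∈ Finset.range N, d k ∈ K) (i : ℕ) :
    S K d (fun k => if k = i then 1 else 0) = d i := by
  have h2 := S_spec hK hS hd hv (a := fun k => if k = i then (1 : ℝ) else 0) (C := 1)
    (fun k => by split_ifs <;> norm_num) (fun k => by split_ifs <;> norm_num)
  have hP : ∀ N, P d (fun k => if k = i then (1 : ℝ) else 0) N = if i < N then d i else 0 := by
    intro N
    simp [P, ite_smul, Finset.sum_ite_eq']
  refine IsSup.unique hK h2 ⟨fun n => ?_, fun w hw => ?_⟩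
  · rw [hP]
    split_ifs
    · simpa using hK.zero_mem
    · simpa using hd i
  · have := hw (i + 1)
    rw [hP, if_pos (Nat.lt_succ_self i)] at this
    exact this

theorem T_indep (hK : IsOrderCone K) (hS : PropertyS K) (hd : ∀ k, d k ∈ K)
    (hv : ∀ N, v - ∑ k ∈ Finset.range N, d k ∈ K) {f : ℕ → ℝ} {B c c' : ℝ} (hB : ∀ k, f k ≤ B)
    (hc : 0 ≤ c) (hc' : 0 ≤ c') (h : ∀ k, 0 ≤ f k + c) (h' : ∀ k, 0 ≤ f k + c') :
    S K d (fun k => f k + c) - c • S K d (fun _ => 1) =
      S K d (fun k => f k + c') - c' • S K d (fun _ => 1) := by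
  have e1 : S K d (fun k => (f k + c) + c' * 1) =
      S K d (fun k => f k + c) + c' • S K d (fun _ => 1) := by
    rw [S_add hK hS hd hv (a := fun k => f k + c) (b := fun _ => c' * 1) (C := B + c)
      (D := c' * 1) h (fun k => by linarith [hB k]) (fun _ => by linarith) (fun _ => le_rfl),
      S_smul hK hS hd hv (a := fun _ => 1) (C := 1) (fun _ => zero_le_one) (fun _ => le_rfl) hc']
  have e2 : S K d (fun k => (f k + c') + c * 1) =
      S K d (fun k => f k + c') + c • S K d (fun _ => 1) := by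
    rw [S_add hK hS hd hv (a := fun k => f k + c') (b := fun _ => c * 1) (C := B + c')
      (D := c * 1) h' (fun k => by linarith [hB k]) (fun _ => by linarith) (fun _ => le_rfl),
      S_smul hK hS hd hv (a := fun _ => 1) (C := 1) (fun _ => zero_le_one) (fun _ => le_rfl) hc]
  have e3 : (fun k => (f k + c) + c' * 1) = (fun k => (f k + c') + c * 1) := by
    funext k
    ring
  rw [e3, e2] at e1
  rw [sub_eq_sub_iff_add_eq_add]
  rw [e1]

theorem abs_le_norm (f : lp (fun _ : ℕ => ℝ) ⊤) (k : ℕ) : |f k| ≤ ‖f‖ := by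
  have := lp.norm_apply_le_norm ENNReal.top_ne_zero f k
  simpa using this

/-- The operator `T : ℓ_∞ → X`, `T f = sup_N ∑_{k<N} f_k d_k`. -/
noncomputable def T (hK : IsOrderCone K) (hS : PropertyS K) (hd : ∀ k, d k ∈ K)
    (hv : ∀ N, v - ∑ k ∈ Finset.range N, d k ∈ K) : lp (fun _ : ℕ => ℝ) ⊤ →ₗ[ℝ] X where
  toFun f := S K d (fun k => f k + ‖f‖) - ‖f‖ • S K d (fun _ => 1)
  map_add' f g := by
    have hf := abs_le_norm f
    have hg := abs_le_norm g
    have hfg := abs_le_norm (f + g)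
    rw [T_indep hK hS hd hv (f := fun k => (f + g) k) (B := ‖f + g‖) (c := ‖f + g‖)
      (c' := ‖f‖ + ‖g‖) (fun k => (abs_le.1 (hfg k)).2) (norm_nonneg _) (by positivity)
      (fun k => by linarith [(abs_le.1 (hfg k)).1]) (fun k => by
        rw [lp.coeFn_add, Pi.add_apply]
        linarith [(abs_le.1 (hf k)).1, (abs_le.1 (hg k)).1])]
    have e : (fun k => (f + g) k + (‖f‖ + ‖g‖)) = fun k => (f k + ‖f‖) + (g k + ‖g‖) := by
      funext k
      rw [lp.coeFn_add, Pi.add_apply]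
      ring
    rw [e, S_add hK hS hd hv (a := fun k => f k + ‖f‖) (b := fun k => g k + ‖g‖)
      (C := ‖f‖ + ‖f‖) (D := ‖g‖ + ‖g‖) (fun k => by linarith [(abs_le.1 (hf k)).1])
      (fun k => by linarith [(abs_le.1 (hf k)).2]) (fun k => by linarith [(abs_le.1 (hg k)).1])
      (fun k => by linarith [(abs_le.1 (hg k)).2]), add_smul]
    abel
  map_smul' c f := by
    have hf := abs_le_norm f
    simp only [RingHom.id_apply]
    have key : ∀ (c : ℝ), 0 ≤ c → ∀ f : lp (fun _ : ℕ => ℝ) ⊤,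
        S K d (fun k => (c • f) k + ‖c • f‖) - ‖c • f‖ • S K d (fun _ => 1) =
        c • (S K d (fun k => f k + ‖f‖) - ‖f‖ • S K d (fun _ => 1)) := by
      intro c hc f
      have hf := abs_le_norm f
      have e : (fun k => (c • f) k + ‖c • f‖) = fun k => c * (f k + ‖f‖) := by
        funext k
        rw [lp.coeFn_smul, Pi.smul_apply, norm_smul, Real.norm_of_nonneg hc, smul_eq_mul]
        ring
      rw [e, S_smul hK hS hd hv (a := fun k => f k + ‖f‖) (C := ‖f‖ + ‖f‖)
        (fun k => by linarith [(abs_le.1 (hf k)).1]) (fun k => by linarith [(abs_le.1 (hf k)).2])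
        hc, norm_smul, Real.norm_of_nonneg hc, smul_sub, smul_smul]
    rcases le_or_gt 0 c with hc | hc
    · exact key c hc f
    · have h1 := key (-c) (by linarith) f
      -- additivity for `c • f + (-c) • f = 0`
      have hcf := abs_le_norm (c • f)
      have e1 : ∀ k, (c • f) k = -(((-c) • f) k) := by
        intro k
        rw [neg_smul, lp.coeFn_neg, Pi.neg_apply, neg_neg]
      have hn : ‖(-c) • f‖ = ‖c • f‖ := by rw [neg_smul, norm_neg]
      have h2 := S_add hK hS hd hv (a := fun k => (c • f) k + ‖c • f‖)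
        (b := fun k => ((-c) • f) k + ‖c • f‖) (C := ‖c • f‖ + ‖c • f‖) (D := ‖c • f‖ + ‖c • f‖)
        (fun k => by linarith [(abs_le.1 (hcf k)).1]) (fun k => by linarith [(abs_le.1 (hcf k)).2])
        (fun k => by
          have := e1 k
          linarith [(abs_le.1 (hcf k)).2]) (fun k => by
          have := e1 k
          linarith [(abs_le.1 (hcf k)).1])
      have e2 : (fun k => ((c • f) k + ‖c • f‖) + (((-c) • f) k + ‖c • f‖)) =
          fun _ => (2 * ‖c • f‖) * 1 := by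
        funext k
        rw [e1 k]
        ring
      rw [e2, S_smul hK hS hd hv (a := fun _ => 1) (C := 1) (fun _ => zero_le_one)
        (fun _ => le_rfl) (by positivity)] at h2
      rw [hn] at h1
      have h3 : S K d (fun k => (c • f) k + ‖c • f‖) =
          (2 * ‖c • f‖) • S K d (fun _ => 1) - S K d (fun k => ((-c) • f) k + ‖c • f‖) := by
        rw [h2]
        abel
      have h4 : S K d (fun k => ((-c) • f) k + ‖c • f‖) =
          (-c) • (S K d (fun k => f k + ‖f‖) - ‖f‖ • S K d (fun _ => 1)) +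
            ‖c • f‖ • S K d (fun _ => 1) := by
        rw [← h1]
        abel
      rw [h3, h4, neg_smul, two_mul, add_smul]
      abel

theorem T_upper (hK : IsOrderCone K) (hS : PropertyS K) (hd : ∀ k, d k ∈ K)
    (hv : ∀ N, v - ∑ k ∈ Finset.range N, d k ∈ K) (f : lp (fun _ : ℕ => ℝ) ⊤) :
    T hK hS hd hv f + ‖f‖ • S K d (fun _ => 1) ∈ K := by
  have hf := abs_le_norm f
  have h := (S_spec hK hS hd hv (a := fun k => f k + ‖f‖) (C := ‖f‖ + ‖f‖)
    (fun k => by linarith [(abs_le.1 (hf k)).1]) (fun k => by linarith [(abs_le.1 (hf k)).2])).1 0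
  change S K d (fun k => f k + ‖f‖) - ‖f‖ • S K d (fun _ => 1) + ‖f‖ • S K d (fun _ => 1) ∈ K
  simpa [P] using h

theorem T_cont [CompleteSpace X] (hK : IsOrderCone K) (hS : PropertyS K) (hd : ∀ k, d k ∈ K)
    (hv : ∀ N, v - ∑ k ∈ Finset.range N, d k ∈ K) : Continuous (T hK hS hd hv) := by
  refine LinearMap.continuous_of_seq_closed_graph _ fun u x y hu hy => ?_
  have h1 : Tendsto (fun n => ‖u n - x‖ • S K d (fun _ => 1)) atTop (𝓝 0) := by
    have h2 : Tendsto (fun n => ‖u n - x‖) atTop (𝓝 0) :=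
      tendsto_iff_norm_sub_tendsto_zero.1 hu
    simpa using h2.smul_const (S K d (fun _ => 1))
  have h2 : Tendsto (fun n => T hK hS hd hv (u n) - T hK hS hd hv x +
      ‖u n - x‖ • S K d (fun _ => 1)) atTop (𝓝 (y - T hK hS hd hv x + 0)) :=
    (hy.sub_const _).add h1
  have h3 : Tendsto (fun n => T hK hS hd hv x - T hK hS hd hv (u n) +
      ‖u n - x‖ • S K d (fun _ => 1)) atTop (𝓝 (T hK hS hd hv x - y + 0)) :=
    (tendsto_const_nhds.sub hy).add h1
  have h4 : y - T hK hS hd hv x ∈ K := by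
    have := hK.closed.mem_of_tendsto h2 (Eventually.of_forall fun n => by
      have := T_upper hK hS hd hv (u n - x)
      rwa [map_sub] at this)
    simpa using this
  have h5 : T hK hS hd hv x - y ∈ K := by
    have := hK.closed.mem_of_tendsto h3 (Eventually.of_forall fun n => by
      have := T_upper hK hS hd hv (x - u n)
      rwa [map_sub, norm_sub_rev] at this)
    simpa using this
  exact sub_eq_zero.1 (hK.salient _ h4 (by simpa using h5))

theorem T_single (hK : IsOrderCone K) (hS : PropertyS K) (hd : ∀ k, d k ∈ K)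
    (hv : ∀ N, v - ∑ k ∈ Finset.range N, d k ∈ K) (i : ℕ) :
    T hK hS hd hv (lp.single ⊤ i 1) = d i := by
  have hf := abs_le_norm (lp.single ⊤ i (1 : ℝ))
  have e : ∀ k, (lp.single ⊤ i (1 : ℝ) : lp (fun _ : ℕ => ℝ) ⊤) k = if k = i then 1 else 0 := by
    intro k
    rw [lp.single_apply, Pi.single_apply]
  change S K d (fun k => (lp.single ⊤ i (1 : ℝ) : lp (fun _ : ℕ => ℝ) ⊤) k +
    ‖(lp.single ⊤ i (1 : ℝ) : lp (fun _ : ℕ => ℝ) ⊤)‖) - _ = _
  rw [T_indep hK hS hd hv (f := fun k => (lp.single ⊤ i (1 : ℝ) : lp (fun _ : ℕ => ℝ) ⊤) k)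
    (B := ‖(lp.single ⊤ i (1 : ℝ) : lp (fun _ : ℕ => ℝ) ⊤)‖)
    (c := ‖(lp.single ⊤ i (1 : ℝ) : lp (fun _ : ℕ => ℝ) ⊤)‖) (c' := 0)
    (fun k => (abs_le.1 (hf k)).2) (norm_nonneg _) le_rfl
    (fun k => by linarith [(abs_le.1 (hf k)).1]) (fun k => by
      rw [e]
      split_ifs <;> norm_num)]
  simp only [add_zero, zero_smul, sub_zero, e]
  exact S_single hK hS hd hv i

end

/-- The cone `K` is normal: there is a constant `c > 0` such that `0 ≤ x ≤ y` implies
`‖x‖ ≤ c ‖y‖`. -/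
def Normal {X : Type*} [NormedAddCommGroup X] (K : Set X) : Prop :=
  ∃ c : ℝ, 0 < c ∧ ∀ x y : X, x ∈ K → y - x ∈ K → ‖x‖ ≤ c * ‖y‖

theorem normal {X : Type*} [NormedAddCommGroup X] [NormedSpace ℝ X] [CompleteSpace X]
    (K : Set X) (hK : IsOrderCone K) (hS : PropertyS K) : Normal K := by
  by_contra hcon
  unfold Normal at hcon
  push Not at hcon
  -- the sequences
  have h1 : ∀ n : ℕ, ∃ x y : X, x ∈ K ∧ y - x ∈ K ∧ ‖y‖ ≤ (1 / 2 : ℝ) ^ n ∧ (n : ℝ) ≤ ‖x‖ := by
    intro n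
    obtain ⟨x, y, hx, hxy, h⟩ := hcon ((n + 1) * 2 ^ n) (by positivity)
    have hy0 : 0 < ‖y‖ := by
      rw [norm_pos_iff]
      rintro rfl
      have hx0 : x = 0 := hK.salient x hx (by simpa using hxy)
      rw [hx0, norm_zero, mul_zero] at h
      exact lt_irrefl _ h
    obtain ⟨t, ht⟩ : ∃ t : ℝ, t = (1 / 2) ^ n / ‖y‖ := ⟨_, rfl⟩
    have ht0 : 0 < t := by rw [ht]; positivity
    refine ⟨t • x, t • y, hK.smul_mem t ht0.le _ hx, ?_, ?_, ?_⟩
    · rw [← smul_sub]
      exact hK.smul_mem t ht0.le _ hxy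
    · rw [norm_smul, Real.norm_of_nonneg ht0.le, ht, div_mul_cancel₀ _ hy0.ne']
    · rw [norm_smul, Real.norm_of_nonneg ht0.le, ht, div_mul_eq_mul_div, le_div_iff₀ hy0]
      have h2 : (n : ℝ) * ‖y‖ ≤ (1 / 2) ^ n * (((n + 1) * 2 ^ n) * ‖y‖) := by
        have h3 : (1 / 2 : ℝ) ^ n * 2 ^ n = 1 := by rw [← mul_pow]; norm_num
        calc (n : ℝ) * ‖y‖ ≤ (n + 1) * ‖y‖ := by gcongr; linarith
          _ = ((1 / 2 : ℝ) ^ n * 2 ^ n) * ((n + 1) * ‖y‖) := by rw [h3, one_mul]
          _ = _ := by ring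
      exact h2.trans (by gcongr)
  choose d y hd hyd hy hdn using h1
  have hsum : Summable y := by
    refine Summable.of_norm_bounded (g := fun n : ℕ => (1 / 2 : ℝ) ^ n)
      (summable_geometric_of_lt_one (by norm_num) (by norm_num)) hy
  have hyK : ∀ n, y n ∈ K := fun n => by
    have := hK.add_mem _ (hyd n) _ (hd n)
    rwa [sub_add_cancel] at this
  have hv : ∀ N, (∑' n, y n) - ∑ k ∈ Finset.range N, d k ∈ K := by
    intro N
    have h2 : ∀ M, N ≤ M → ∑ k ∈ Finset.range M, y k - ∑ k ∈ Finset.range N, d k ∈ K := by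
      intro M hM
      have h3 := sum_mem hK (Finset.range N) (fun k => y k - d k) (fun k _ => hyd k)
      have h4 := sum_mem hK (Finset.Ico N M) y (fun k _ => hyK k)
      have h5 := hK.add_mem _ h4 _ h3
      rw [Finset.sum_sub_distrib] at h5
      have h6 : ∑ k ∈ Finset.range N, y k + ∑ k ∈ Finset.Ico N M, y k =
          ∑ k ∈ Finset.range M, y k := Finset.sum_range_add_sum_Ico y hM
      rw [← h6]
      convert h5 using 1
      abel
    refine hK.closed.mem_of_tendsto ((hsum.hasSum.tendsto_sum_nat).sub_const _) ?_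
    filter_upwards [eventually_ge_atTop N] with M hM using h2 M hM
  let Tc : lp (fun _ : ℕ => ℝ) ⊤ →L[ℝ] X := ⟨T hK hS hd hv, T_cont hK hS hd hv⟩
  have hT1 : ∀ i, Tc (lp.single ⊤ i 1) = d i := fun i => T_single hK hS hd hv i
  obtain ⟨n, hn⟩ := exists_nat_gt ‖Tc‖
  have h2 : ‖d n‖ ≤ ‖Tc‖ := by
    rw [← hT1 n]
    refine (Tc.le_opNorm _).trans ?_
    have h3 : ‖(lp.single ⊤ n (1 : ℝ) : lp (fun _ : ℕ => ℝ) ⊤)‖ ≤ 1 := by
      refine lp.norm_le_of_forall_le zero_le_one fun k => ?_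
      rw [lp.single_apply, Pi.single_apply]
      split_ifs <;> simp
    calc ‖Tc‖ * _ ≤ ‖Tc‖ * 1 := by gcongr
      _ = ‖Tc‖ := mul_one _
  have h3 := hdn n
  linarith


end Pool.Agent.H34.Linf
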